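import Pool.Agent.Helper20.EP.Spec3

/-!
# EP, parts EXDAT and LIMM (swarm of helper20)
-/

set_option autoImplicit false

open Polynomial

namespace Pool.Agent.Helper84.EP

open Pool.Agent.Helper20.EP

private lemma app_zero (f : ℝ[X]) (N : ℕ) :
    App f N 1 0 (∑ j ∈ Finset.range (f.natDegree + 1), |f.coeff j| * (N : ℝ) ^ j) := by
  have hnn : ∀ j : ℕ, 0 ≤ |f.coeff j| * (N : ℝ) ^ j := fun j => by positivity
  refine ⟨le_refl 1, Finset.sum_nonneg fun j _ => hnn j, ?_, ?_, ?_⟩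
  · simp
  · simp
  · intro j _
    by_cases hj : j ≤ f.natDegree
    · have := Finset.single_le_sum (f := fun j => |f.coeff j| * (N : ℝ) ^ j)
        (fun i _ => hnn i) (Finset.mem_range.2 (Nat.lt_succ_of_le hj))
      simpa using this
    · have h0 : f.coeff j = 0 := coeff_eq_zero_of_natDegree_lt (not_le.1 hj)
      simp only [h0, Polynomial.coeff_zero, Int.cast_zero, zero_div, sub_zero, abs_zero, zero_mul]
      exact Finset.sum_nonneg fun j _ => hnn j

/-- EXDAT -/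
theorem exdat : S_EXDAT := by
  intro f hf N hN
  let V : Set ℝ := {x | ∃ (q : ℕ) (F : ℤ[X]) (T : ℝ), App f N q F T ∧ x = q * (1 + T)}
  have hVne : V.Nonempty := ⟨_, 1, 0, _, app_zero f N, rfl⟩
  have hV1 : ∀ x ∈ V, (1 : ℝ) ≤ x := by
    rintro x ⟨q, F, T, hA, rfl⟩
    have h1 : (1 : ℝ) ≤ q := by exact_mod_cast hA.q_pos
    nlinarith [hA.T_nn]
  have hVb : BddBelow V := ⟨1, fun x hx => hV1 x hx⟩
  have hinf : (1 : ℝ) ≤ sInf V := le_csInf hVne hV1
  obtain ⟨x0, hx0, hx0lt⟩ := exists_lt_of_csInf_lt hVne (show sInf V < 2 * sInf V by linarith)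
  obtain ⟨q0, F0, T0, hA0, hx0e⟩ := hx0
  -- the exact value of `T`
  obtain ⟨j0, hj0, hmax⟩ := Finset.exists_max_image (Finset.Icc 1 f.natDegree)
    (fun j => |f.coeff j - (F0.coeff j : ℝ) / q0| * (N : ℝ) ^ j) ⟨1, by simp [hf]⟩
  set T := |f.coeff j0 - (F0.coeff j0 : ℝ) / q0| * (N : ℝ) ^ j0 with hT
  have hj0' := Finset.mem_Icc.1 hj0
  have hTT0 : T ≤ T0 := hA0.app j0 hj0'.1
  have hTnn : 0 ≤ T := by positivity
  have happ : ∀ j : ℕ, 1 ≤ j → |f.coeff j - (F0.coeff j : ℝ) / q0| * (N : ℝ) ^ j ≤ T := by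
    intro j hj
    by_cases hjd : j ≤ f.natDegree
    · exact hmax j (Finset.mem_Icc.2 ⟨hj, hjd⟩)
    · have h0 : f.coeff j = 0 := coeff_eq_zero_of_natDegree_lt (not_le.1 hjd)
      have h1 : F0.coeff j = 0 :=
        coeff_eq_zero_of_natDegree_lt (lt_of_le_of_lt hA0.deg (not_le.1 hjd))
      simp only [h0, h1, Int.cast_zero, zero_div, sub_zero, abs_zero, zero_mul]
      exact hTnn
  -- divide by the greatest common divisor
  set g : ℕ := Nat.gcd q0 F0.content.natAbs with hg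
  have hgq : g ∣ q0 := Nat.gcd_dvd_left _ _
  have hgc : (g : ℤ) ∣ F0.content := Int.natCast_dvd.2 (Nat.gcd_dvd_right _ _)
  have hg0 : 0 < g := Nat.gcd_pos_of_pos_left _ hA0.q_pos
  obtain ⟨q, hq⟩ := hgq
  have hCg : (C (g : ℤ) : ℤ[X]) ∣ F0 :=
    (C_dvd_iff_dvd_coeff _ _).2 fun i => hgc.trans (content_dvd_coeff i)
  obtain ⟨F, hF⟩ := hCg
  have hqpos : 1 ≤ q := by
    rcases Nat.eq_zero_or_pos q with h | h
    · exfalso
      rw [h, mul_zero] at hq
      have := hA0.q_pos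
      omega
    · exact h
  have hcoef : ∀ j, F0.coeff j = g * F.coeff j := fun j => by
    rw [hF, coeff_C_mul]
  have hgR : (g : ℝ) ≠ 0 := by exact_mod_cast hg0.ne'
  have hqR : (q : ℝ) ≠ 0 := by
    have : (0 : ℝ) < q := by exact_mod_cast hqpos
    exact this.ne'
  have hquo : ∀ j, (F.coeff j : ℝ) / q = (F0.coeff j : ℝ) / q0 := by
    intro j
    rw [hcoef j, hq]
    push_cast
    field_simp
  have hF0 : F0.natDegree = F.natDegree := by
    rw [hF]
    exact natDegree_C_mul (by exact_mod_cast hg0.ne')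
  have hA : App f N q F T := by
    refine ⟨hqpos, hTnn, hF0 ▸ hA0.deg, ?_, ?_⟩
    · have h := hcoef 0
      rw [hA0.c0] at h
      rcases mul_eq_zero.1 h.symm with h | h
      · exfalso
        have : g = 0 := by exact_mod_cast h
        omega
      · exact h
    · intro j hj
      rw [hquo j]
      exact happ j hj
  refine ⟨q, F, T, q * (1 + T), ⟨hA, rfl, ⟨j0, hj0'.1, by rw [hquo j0]⟩, ?_, ?_⟩⟩
  · intro g' hg'q hg'F
    have h1 : g * g' ∣ q0 := by
      rw [hq]
      exact Nat.mul_dvd_mul_left g hg'q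
    have h2 : ((g * g' : ℕ) : ℤ) ∣ F0.content := by
      refine (Polynomial.dvd_content_iff_C_dvd).2 ((C_dvd_iff_dvd_coeff _ _).2 fun i => ?_)
      rw [hcoef i]
      push_cast
      rcases Nat.eq_zero_or_pos i with hi | hi
      · have h0 : F.coeff 0 = 0 := hA.c0
        rw [hi, h0]
        simp
      · exact mul_dvd_mul_left _ (hg'F i hi)
    have h3 : g * g' ∣ g := by
      conv_rhs => rw [hg]
      exact Nat.dvd_gcd h1 (Int.natCast_dvd.1 h2)
    have h4 : g * g' ≤ g := Nat.le_of_dvd hg0 h3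
    have h5 : 0 < g' := by
      rcases Nat.eq_zero_or_pos g' with h | h
      · exfalso
        rw [h, mul_zero] at h3
        have := Nat.eq_zero_of_zero_dvd h3
        omega
      · exact h
    nlinarith
  · intro q' F' T' hA'
    have h1 : sInf V ≤ q' * (1 + T') := csInf_le hVb ⟨q', F', T', hA', rfl⟩
    have h2 : (q : ℝ) * (1 + T) ≤ q0 * (1 + T0) := by
      have hg1 : (1 : ℝ) ≤ g := by exact_mod_cast hg0
      have hq1 : (0 : ℝ) < q := by exact_mod_cast hqpos
      rw [hq]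
      push_cast
      have : (q : ℝ) * (1 + T) ≤ q * (1 + T0) := by nlinarith
      have h3 : (q : ℝ) * (1 + T0) ≤ g * q * (1 + T0) := by
        have : 0 ≤ (q : ℝ) * (1 + T0) := by
          have := hA0.T_nn
          positivity
        nlinarith
      linarith
    rw [← hx0e] at h2
    linarith

/-- LIMM -/
theorem limm : S_LIMM := by
  rintro f ⟨j, hj, hirr⟩ B
  -- the distances of `q a_j` to the integers
  have hpos : ∀ q : ℕ, 1 ≤ q → 0 < |q * f.coeff j - round (q * f.coeff j)| := by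
    intro q hq
    rw [abs_pos, sub_ne_zero]
    have h1 : Irrational ((q : ℝ) * f.coeff j) := hirr.natCast_mul (by omega)
    exact h1.ne_int _
  obtain ⟨δ, hδ, hδle⟩ : ∃ δ : ℝ, 0 < δ ∧ ∀ q : ℕ, 1 ≤ q → (q : ℝ) ≤ B →
      δ ≤ |q * f.coeff j - round (q * f.coeff j)| := by
    by_cases hne : (Finset.Icc 1 ⌊B⌋₊).Nonempty
    · obtain ⟨q1, hq1, hmin⟩ := Finset.exists_min_image (Finset.Icc 1 ⌊B⌋₊)
        (fun q : ℕ => |q * f.coeff j - round (q * f.coeff j)|) hne
      refine ⟨_, hpos q1 (Finset.mem_Icc.1 hq1).1, fun q hq hqB => ?_⟩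
      exact hmin q (Finset.mem_Icc.2 ⟨hq, Nat.le_floor hqB⟩)
    · refine ⟨1, one_pos, fun q hq hqB => ?_⟩
      exact absurd ⟨q, Finset.mem_Icc.2 ⟨hq, Nat.le_floor hqB⟩⟩ hne
  refine ⟨⌈B / δ⌉₊ + 1, fun N hN q F T M hD => ?_⟩
  by_contra hlt
  push Not at hlt
  have hq1 : (1 : ℝ) ≤ q := by exact_mod_cast hD.q_pos
  have hT := hD.T_nn
  have hM := hD.hM
  have hqB : (q : ℝ) ≤ B := by nlinarith
  have hqT : (q : ℝ) * T < B := by nlinarith
  have hN1 : (1 : ℝ) ≤ N := by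
    have : 1 ≤ N := by omega
    exact_mod_cast this
  have happ := hD.app j hj
  have h1 : |q * f.coeff j - F.coeff j| * (N : ℝ) ^ j ≤ q * T := by
    have h2 : |q * f.coeff j - F.coeff j| = q * |f.coeff j - (F.coeff j : ℝ) / q| := by
      rw [← abs_of_pos (show (0 : ℝ) < q by linarith), ← abs_mul, abs_of_pos (show (0 : ℝ) < q by linarith)]
      congr 1
      field_simp
    rw [h2, mul_assoc]
    exact mul_le_mul_of_nonneg_left happ (by linarith)
  have h3 : (N : ℝ) ≤ (N : ℝ) ^ j := by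
    calc (N : ℝ) = (N : ℝ) ^ 1 := (pow_one _).symm
      _ ≤ (N : ℝ) ^ j := pow_le_pow_right₀ hN1 hj
  have h4 : δ ≤ |q * f.coeff j - F.coeff j| :=
    (hδle q hD.q_pos hqB).trans (round_le _ _)
  have h5 : δ * N < B := by
    calc δ * N ≤ |q * f.coeff j - F.coeff j| * (N : ℝ) ^ j := by
            apply mul_le_mul h4 h3 (by linarith) (abs_nonneg _)
      _ ≤ q * T := h1
      _ < B := hqT
  have h6 : B / δ < N := by
    have : B / δ ≤ ⌈B / δ⌉₊ := Nat.le_ceil _
    have h7 : ((⌈B / δ⌉₊ + 1 : ℕ) : ℝ) ≤ N := by exact_mod_cast hN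
    push_cast at h7
    linarith
  rw [div_lt_iff₀ hδ] at h6
  linarith

end Pool.Agent.Helper84.EP
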